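import Pool.Agent.Helper32.RA.Local
import Pool.Agent.N228.DQ.Good
import Pool.Agent.Y736.RN.M

set_option autoImplicit false

/-! # Sets which are decided outside a subset of dimension zero -/

namespace Pool.Agent.Helper32.RA

open Complex Filter Topology Set Metric MeasureTheory
open N62a1eb23
open Pool.Agent.H712R2 (P P_succ P_one P_zero fc)
open Pool.Agent.H637R4.PO Pool.Agent.H713R2.AR Pool.Agent.Y736.RN
open Pool.Agent.H713R2 (exists_beta exteriorMap_of_beta)

variable {d : ℕ}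

/-- A connected set has a point on all circles about one of its points which do not surround it. -/
theorem exists_radius {E : Set ℂ} (hE : IsPreconnected E) {c : ℂ} (hc : c ∈ E) {ρ : ℝ}
    (hρ : ¬ E ⊆ ball c ρ) {s : ℝ} (hs0 : 0 ≤ s) (hs : s ≤ ρ) : ∃ z ∈ E, dist z c = s := by
  obtain ⟨w, hw, hwρ⟩ := not_subset.1 hρ
  have h1 : IsPreconnected ((fun z => dist z c) '' E) :=
    hE.image _ (continuous_id.dist continuous_const).continuousOn
  have h2 : s ∈ (fun z => dist z c) '' E := by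
    apply h1.Icc_subset (a := 0) (b := dist w c) ⟨c, hc, dist_self c⟩ ⟨w, hw, rfl⟩
    exact ⟨hs0, hs.trans (not_lt.1 hwρ)⟩
  exact h2

/-- A connected set with two points meets every set with a complement of dimension zero in it. -/
theorem meets {A E : Set ℂ} (hE : IsPreconnected E) (hA : dimH (E \ A) = 0) {c : ℂ}
    (hc : c ∈ E) {ρ : ℝ} (hρ0 : 0 < ρ) (hρ : ¬ E ⊆ ball c ρ) : (E ∩ A).Nonempty := by
  by_contra hcon
  rw [not_nonempty_iff_eq_empty] at hcon
  have hL : LipschitzWith 1 (fun z : ℂ => dist z c) := LipschitzWith.dist_left c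
  have h1 : μH[1] (E \ A) = 0 := by
    apply Pool.Agent.N228.DQ.null_dim zero_le_one
    rw [hA]
    simp
  have h2 := hL.hausdorffMeasure_image_le (d := 1) zero_le_one (E \ A)
  rw [h1, mul_zero, nonpos_iff_eq_zero] at h2
  have h4 : Ico 0 ρ ⊆ (fun z : ℂ => dist z c) '' (E \ A) := by
    rintro s ⟨hs0, hs⟩
    obtain ⟨z, hz, hzs⟩ := exists_radius hE hc hρ hs0 hs.le
    refine ⟨z, ⟨hz, fun hzA => ?_⟩, hzs⟩
    have : z ∈ E ∩ A := ⟨hz, hzA⟩
    rw [hcon] at this
    exact this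
  have h5 := measure_mono (μ := μH[1]) h4
  rw [h2, hausdorffMeasure_real, Real.volume_Ico, sub_zero, nonpos_iff_eq_zero,
    ENNReal.ofReal_eq_zero] at h5
  linarith

/-- Total disconnectedness is decided at the points of `A`. -/
theorem decide_disc {S A : Set ℂ} (hA : dimH (S \ A) = 0) :
    IsTotallyDisconnected S ↔ ∀ c ∈ S ∩ A, connectedComponentIn S c = {c} := by
  have hE0 : ∀ E ⊆ S, dimH (E \ A) = 0 := by
    intro E hE
    apply le_antisymm _ bot_le
    exact (dimH_mono (sdiff_subset_sdiff_left hE)).trans hA.le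
  constructor
  · intro h c hc
    apply Subset.antisymm
    · intro z hz
      exact h _ (connectedComponentIn_subset _ _) isPreconnected_connectedComponentIn hz
        (mem_connectedComponentIn hc.1)
    · rw [singleton_subset_iff]
      exact mem_connectedComponentIn hc.1
  · intro h E hE hEc x hx y hy
    by_contra hxy
    have hd : 0 < dist y x := dist_pos.2 (Ne.symm hxy)
    have hρ : ¬ E ⊆ ball x (dist y x) := by
      intro h1
      exact lt_irrefl _ (mem_ball.1 (h1 hy))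
    obtain ⟨c, hcE, hcA⟩ := meets hEc (hE0 E hE) hx hd hρ
    have h5 := h c ⟨hE hcE, hcA⟩
    have h6 : E ⊆ connectedComponentIn S c := hEc.subset_connectedComponentIn hcE hE
    rw [h5] at h6
    exact hxy ((h6 hx).trans (h6 hy).symm)

/-- Measure zero is decided at the points of `A`. -/
theorem decide_null {S A : Set ℂ} (hA : dimH (S \ A) = 0) :
    volume S = 0 ↔ volume (S ∩ A) = 0 := by
  constructor
  · exact fun h => measure_mono_null inter_subset_left h
  · intro h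
    have h1 : volume (S \ A) = 0 := volume_zero_of_dimH (by rw [hA]; norm_num)
    have h2 : S ⊆ (S ∩ A) ∪ (S \ A) := by rw [inter_union_sdiff]
    exact measure_mono_null h2 (measure_union_null h h1)

/-- somewhere near a point of the filled Julia set the areas decay polynomially -/
def Dec (d : ℕ) (α : ℝ) (c : ℂ) : Prop :=
  ∃ O : Set ℂ, IsOpen O ∧ (O ∩ Kf d c).Nonempty ∧
    ∃ᶠ s in 𝓝[>] (0 : ℝ), volume (O ∩ {z : ℂ | green d c z ≤ s}) ≤ ENNReal.ofReal (s ^ α)

theorem tendsto_rpow {α : ℝ} (hα : 0 < α) : Tendsto (fun s : ℝ => s ^ α) (𝓝[>] 0) (𝓝 0) := by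
  have h1 : Tendsto (fun s : ℝ => s ^ α) (𝓝 0) (𝓝 ((0:ℝ) ^ α)) := by
    apply ContinuousAt.tendsto
    apply Real.continuousAt_rpow_const
    right
    exact hα.le
  rw [Real.zero_rpow hα.ne'] at h1
  exact h1.mono_left nhdsWithin_le_nhds

/-- an open set which meets the interior -/
theorem not_dec_int (hd : 2 ≤ d) {c : ℂ} {O : Set ℂ} (hO : IsOpen O) {z₀ : ℂ} (hz : z₀ ∈ O)
    (hz' : z₀ ∈ closure (interior (Kf d c))) {α : ℝ} (hα : 0 < α) :
    ¬ ∃ᶠ s in 𝓝[>] (0 : ℝ), volume (O ∩ {z : ℂ | green d c z ≤ s}) ≤ ENNReal.ofReal (s ^ α) := by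
  rw [not_frequently]
  have hne : (O ∩ interior (Kf d c)).Nonempty := by
    rw [_root_.mem_closure_iff] at hz'
    exact hz' O hO hz
  have hpos : 0 < volume (O ∩ interior (Kf d c)) := (hO.inter isOpen_interior).measure_pos _ hne
  have h1 : Tendsto (fun s : ℝ => ENNReal.ofReal (s ^ α)) (𝓝[>] 0) (𝓝 0) := by
    have := ENNReal.tendsto_ofReal (tendsto_rpow hα)
    rwa [ENNReal.ofReal_zero] at this
  filter_upwards [h1.eventually (Iio_mem_nhds hpos), self_mem_nhdsWithin] with s hs hs0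
  rw [not_le]
  refine lt_of_lt_of_le hs (measure_mono ?_)
  rintro z ⟨h2, h3⟩
  refine ⟨h2, ?_⟩
  show green d c z ≤ s
  rw [green_zero_of_mem hd (interior_subset h3)]
  exact le_of_lt hs0

/-- For `c = 0` nothing decays. -/
theorem not_dec_zero (hd : 2 ≤ d) {α : ℝ} (hα : 0 < α) : ¬ Dec d α 0 := by
  rintro ⟨O, hO, ⟨z₀, hz, hz'⟩, hf⟩
  have hiter : ∀ (n : ℕ) (z : ℂ), ‖(fc d 0)^[n] z‖ = ‖z‖ ^ (d ^ n) := by
    intro n z
    induction n with
    | zero => simp
    | succ n ih =>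
      rw [Function.iterate_succ_apply']
      show ‖((fc d 0)^[n] z) ^ d + 0‖ = _
      rw [add_zero, norm_pow, ih, ← pow_mul, pow_succ]
  have hK : Kf d 0 = closedBall 0 1 := by
    ext z
    rw [mem_closedBall_zero_iff]
    constructor
    · rintro ⟨B, hB⟩
      by_contra hcon
      push Not at hcon
      obtain ⟨m, hm⟩ := pow_unbounded_of_one_lt B hcon
      have h1 := hB m
      rw [hiter] at h1
      have h2 : ‖z‖ ^ m ≤ ‖z‖ ^ (d ^ m) :=
        pow_le_pow_right₀ hcon.le (Nat.lt_pow_self (by omega : 1 < d)).le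
      linarith
    · intro h
      exact ⟨1, fun n => by rw [hiter]; exact pow_le_one₀ (norm_nonneg _) h⟩
  refine not_dec_int hd hO hz ?_ hα hf
  rw [hK] at hz' ⊢
  rw [interior_closedBall _ one_ne_zero, closure_ball _ one_ne_zero]
  exact hz'

/-- Local decay implies global decay with a slightly smaller exponent. -/
theorem global_of_dec (hd : 2 ≤ d) {c : ℂ} {α α' : ℝ} (hα' : 0 < α')
    (hlt : α' < α) (h : Dec d α c) : ∃ᶠ s in 𝓝[>] (0 : ℝ), Ar d c s ≤ s ^ α' := by
  have hα : 0 < α := hα'.trans hlt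
  have hc0 : c ≠ 0 := by
    rintro rfl
    exact not_dec_zero hd hα h
  obtain ⟨O, hO, ⟨z₀, hz, hzK⟩, hf⟩ := h
  have hfr : z₀ ∈ frontier (Kf d c) := by
    rw [(isClosed_Kf hd c).frontier_eq]
    refine ⟨hzK, fun hint => ?_⟩
    exact not_dec_int hd hO hz (subset_closure hint) hα hf
  obtain ⟨C, hC, hloc⟩ := local_le hd hc0 hO hz hfr
  have hsm : ∀ᶠ s in 𝓝[>] (0 : ℝ), s ^ (α - α') < 1 / C :=
    (tendsto_rpow (by linarith : 0 < α - α')).eventually (Iio_mem_nhds (by positivity))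
  have hs1 : ∀ᶠ s in 𝓝[>] (0 : ℝ), s < 1 := mem_nhdsWithin_of_mem_nhds (Iio_mem_nhds one_pos)
  refine (hf.and_eventually (hsm.and (hs1.and self_mem_nhdsWithin))).mono ?_
  rintro s ⟨h1, h2, h3, h4⟩
  have hs0 : (0 : ℝ) < s := h4
  have h5 := hloc s hs0 h3.le
  have h6 : volume {z : ℂ | green d c z ≤ s} ≤ ENNReal.ofReal (C * s ^ α) := by
    refine h5.trans ?_
    rw [ENNReal.ofReal_mul hC.le]
    gcongr
  have h7 : Ar d c s ≤ C * s ^ α :=
    ENNReal.toReal_le_of_le_ofReal (by positivity) h6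
  have h8 : s ^ α = s ^ (α - α') * s ^ α' := by
    rw [← Real.rpow_add hs0]
    congr 1
    ring
  have h9 : 0 < s ^ α' := by positivity
  rw [lt_div_iff₀ hC] at h2
  rw [h8] at h7
  calc Ar d c s ≤ C * (s ^ (α - α') * s ^ α') := h7
    _ = (s ^ (α - α') * C) * s ^ α' := by ring
    _ ≤ 1 * s ^ α' := by gcongr
    _ = s ^ α' := one_mul _

/-- renormalizable parameters of one period -/
theorem dim_dec (hd : 2 ≤ d) {p : ℕ} (hp : 1 ≤ p) {α : ℝ} (hα : 0 < α) :
    dimH {c : ℂ | Ren d c p ∧ Dec d α c} ≤ ENNReal.ofReal (1 / (p * α)) := by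
  have hpR : (0 : ℝ) < p := by exact_mod_cast hp
  have key : ∀ᶠ α' : ℝ in 𝓝[<] α,
      dimH {c : ℂ | Ren d c p ∧ Dec d α c} ≤ ENNReal.ofReal (1 / (p * α')) := by
    have h0 : ∀ᶠ α' : ℝ in 𝓝[<] α, 0 < α' := mem_nhdsWithin_of_mem_nhds (Ioi_mem_nhds hα)
    filter_upwards [self_mem_nhdsWithin, h0] with α' h1 h2
    refine (dimH_mono ?_).trans (dim_area hd hp h2)
    rintro c ⟨h3, h4⟩
    exact ⟨h3, global_of_dec hd h2 h1 h4⟩
  have hlim : Tendsto (fun α' : ℝ => ENNReal.ofReal (1 / (p * α'))) (𝓝[<] α)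
      (𝓝 (ENNReal.ofReal (1 / (p * α)))) := by
    apply Tendsto.mono_left _ nhdsWithin_le_nhds
    apply ENNReal.tendsto_ofReal
    apply ContinuousAt.tendsto (f := fun α' : ℝ => 1 / ((p : ℝ) * α'))
    apply ContinuousAt.div continuousAt_const (by fun_prop)
    positivity
  exact ge_of_tendsto hlim key

/-- infinitely renormalizable parameters -/
theorem dim_dec_inf (hd : 2 ≤ d) :
    dimH {c : ℂ | {p : ℕ | Ren d c p}.Infinite ∧ ∃ α : ℝ, 0 < α ∧ Dec d α c} = 0 := by
  apply le_antisymm _ bot_le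
  refine (dimH_mono ?_).trans (dim_area_inf hd).le
  rintro c ⟨h1, α, hα, h2⟩
  exact ⟨h1, α / 2, by positivity, global_of_dec hd (by positivity) (by linarith) h2⟩

/-- parameters with subexponential geometry -/
theorem not_dec_of_weak (hd : 2 ≤ d) {c : ℂ} (hc : c ∈ multibrotSet d)
    (h : ∀ ε : ℝ, 0 < ε → {p : ℕ | ∃ (U : Set ℂ) (r : ℝ), 0 < r ∧
      (∀ n : ℕ, ball (P d (n * p) c) r ⊆ U) ∧
      ∀ z ∈ U, ∀ z' ∈ U, ‖(fc d c)^[p] z - (fc d c)^[p] z'‖ ≤ Real.exp (ε * p) * r}.Infinite)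
    {α : ℝ} (hα : 0 < α) : ¬ Dec d α c := by
  intro hD
  obtain ⟨β, hβ⟩ := exists_beta (d := d) hd
  have hψ := exteriorMap_of_beta hβ
  refine not_big_of_weak hd hψ hc h (2 / α + 1) (by positivity) ?_
  refine big_of_area hd hψ hc (α := α / 2) (by positivity) ?_
    (global_of_dec hd (by positivity) (by linarith) hD)
  have : 1 / (α / 2) = 2 / α := by field_simp
  rw [this]
  linarith

end Pool.Agent.Helper32.RA
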