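import Pool.Agent.Y736.RN.L
import Pool.Agent.H637R4.PO.Fin

set_option autoImplicit false

/-! # Areas of the sublevel sets of the escape rate and flatness of the connectedness locus -/

namespace Pool.Agent.Helper32.RA

open Complex Filter Topology Set Metric MeasureTheory Pool.Agent.H713R2
open N62a1eb23
open Pool.Agent.Y736.RN Pool.Agent.H637R4.PO Pool.Agent.H713R2.AR

variable {d : ℕ} {ψ : ℂ → ℂ}

theorem ext_of (hψ : IsExteriorMap (multibrotSet d) ψ) : Ext (multibrotSet d) ψ :=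
  ⟨hψ.1, hψ.2, hψ.3, hψ.4⟩

/-- If Green's function of the parameter plane is flat of order `κ` at `c` then the areas are not
small. -/
theorem area_lower (hd : 2 ≤ d) (hψ : IsExteriorMap (multibrotSet d) ψ) {c : ℂ}
    (hc : c ∈ multibrotSet d) {κ : ℝ} (hκ : 0 < κ) (hB : ¬ Big ψ κ c) :
    ∃ C : ℝ, 0 < C ∧ ∀ᶠ s in 𝓝[>] (0 : ℝ), C * s ^ (1 / κ) ≤ Ar d c s := by
  have hdR : (2 : ℝ) ≤ d := by exact_mod_cast hd
  have hev : ∀ᶠ r : ℝ in 𝓝[>] 0, ∀ w : ℂ, 1 < ‖w‖ → ‖ψ w - c‖ ≤ r →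
      Real.log ‖w‖ < 1 * r ^ κ := by
    unfold Big at hB
    push Not at hB
    have h1 := hB 1 one_pos
    exact h1
  have hCd : 0 < Cd d := by
    unfold Cd
    have := Real.exp_pos 1
    have := Real.pi_pos
    positivity
  -- `s = ρ ^ κ * 2 / d`
  obtain ⟨g, hg⟩ : ∃ g : ℝ → ℝ, g = fun s : ℝ => ((d : ℝ) * s / 2) ^ (1 / κ) := ⟨_, rfl⟩
  have hg0 : Tendsto g (𝓝[>] 0) (𝓝[>] 0) := by
    rw [tendsto_nhdsWithin_iff]
    constructor
    · have h1 : Tendsto (fun s : ℝ => (d * s / 2) ^ (1 / κ)) (𝓝 0) (𝓝 ((d * 0 / 2) ^ (1 / κ))) := by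
        apply ContinuousAt.tendsto
        apply ContinuousAt.rpow_const
        · fun_prop
        · right; positivity
      rw [mul_zero, zero_div, Real.zero_rpow (by positivity)] at h1
      rw [hg]
      exact h1.mono_left nhdsWithin_le_nhds
    · filter_upwards [self_mem_nhdsWithin] with s hs
      have hs0 : (0 : ℝ) < s := hs
      rw [hg]
      show (0 : ℝ) < (d * s / 2) ^ (1 / κ)
      positivity
  refine ⟨((d : ℝ) / 2) ^ (1 / κ) / Cd d, by positivity, ?_⟩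
  have hd0 : (0 : ℝ) < 1 / (d : ℝ) := by positivity
  have hsm : ∀ᶠ s in 𝓝[>] (0 : ℝ), s < 1 / (d : ℝ) :=
    mem_nhdsWithin_of_mem_nhds (Iio_mem_nhds hd0)
  filter_upwards [hg0.eventually hev, self_mem_nhdsWithin, hsm] with s h1 hs hs1
  have hs0 : (0 : ℝ) < s := hs
  have hρ0 : 0 < g s := by
    rw [hg]
    show (0 : ℝ) < (d * s / 2) ^ (1 / κ)
    positivity
  have hρκ : g s ^ κ = d * s / 2 := by
    rw [hg]
    show ((d * s / 2) ^ (1 / κ)) ^ κ = d * s / 2
    rw [← Real.rpow_mul (by positivity), one_div_mul_cancel hκ.ne', Real.rpow_one]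
  have hds : d * s < 1 := by
    rw [lt_div_iff₀ (by linarith)] at hs1
    linarith
  have hbnd : Bnd ψ c (g s) (d * s) := by
    intro w hw hwb
    rw [mem_ball, dist_eq_norm] at hwb
    have h2 := h1 w hw hwb.le
    rw [one_mul, hρκ] at h2
    have h3 : ‖w‖ ≤ Real.exp (d * s / 2) := by
      rw [← Real.log_le_iff_le_exp (by linarith)]
      exact h2.le
    have h4 : Real.exp (d * s / 2) ≤ 1 + 2 * (d * s / 2) := by
      have h5 : |Real.exp (d * s / 2) - 1 - d * s / 2| ≤ (d * s / 2) ^ 2 := by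
        apply Real.abs_exp_sub_one_sub_id_le
        rw [abs_of_pos (by positivity)]
        linarith
      have h6 := (abs_le.1 h5).2
      have h7 : 0 < d * s / 2 := by positivity
      nlinarith
    linarith
  have h2 := f_AREA d hd ψ (ext_of hψ) c hc (g s) (d * s) hρ0 (by positivity) hds.le hbnd
  have h3 : (d : ℝ) * s / d = s := by
    field_simp
  rw [h3] at h2
  have h4 : g s = ((d : ℝ) / 2) ^ (1 / κ) * s ^ (1 / κ) := by
    rw [hg]
    show (d * s / 2) ^ (1 / κ) = _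
    rw [← Real.mul_rpow (by positivity) hs0.le]
    congr 1
    ring
  rw [h4] at h2
  rw [div_mul_eq_mul_div, div_le_iff₀ hCd]
  linarith

/-- Polynomial decay of the areas along a sequence implies that Green's function of the parameter
plane is not flat. -/
theorem big_of_area (hd : 2 ≤ d) (hψ : IsExteriorMap (multibrotSet d) ψ) {c : ℂ}
    (hc : c ∈ multibrotSet d) {α κ : ℝ} (hα : 0 < α) (hκ : 1 / α < κ)
    (hf : ∃ᶠ s in 𝓝[>] (0 : ℝ), Ar d c s ≤ s ^ α) : Big ψ κ c := by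
  by_contra hB
  have hκ0 : 0 < κ := lt_trans (by positivity) hκ
  obtain ⟨C, hC, hev⟩ := area_lower hd hψ hc hκ0 hB
  have hlt : 1 / κ < α := by
    rw [div_lt_iff₀ hκ0]
    rw [div_lt_iff₀ hα] at hκ
    linarith
  have hlim : Tendsto (fun s : ℝ => s ^ (α - 1 / κ)) (𝓝[>] 0) (𝓝 0) := by
    have h1 : Tendsto (fun s : ℝ => s ^ (α - 1 / κ)) (𝓝 0) (𝓝 ((0:ℝ) ^ (α - 1 / κ))) := by
      apply ContinuousAt.tendsto
      apply Real.continuousAt_rpow_const
      right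
      linarith
    rw [Real.zero_rpow (by linarith)] at h1
    exact h1.mono_left nhdsWithin_le_nhds
  have hsm : ∀ᶠ s in 𝓝[>] (0 : ℝ), s ^ (α - 1 / κ) < C := hlim.eventually (Iio_mem_nhds hC)
  obtain ⟨s, h1, h2, h3, h4⟩ := (hf.and_eventually (hev.and (hsm.and self_mem_nhdsWithin))).exists
  have hs0 : (0 : ℝ) < s := h4
  have h5 : s ^ α = s ^ (α - 1 / κ) * s ^ (1 / κ) := by
    rw [← Real.rpow_add hs0]
    congr 1
    ring
  have h6 : 0 < s ^ (1 / κ) := by positivity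
  rw [h5] at h1
  nlinarith

/-- renormalizable parameters of one period -/
theorem dim_area (hd : 2 ≤ d) {p : ℕ} (hp : 1 ≤ p) {α : ℝ} (hα : 0 < α) :
    dimH {c : ℂ | Ren d c p ∧ ∃ᶠ s in 𝓝[>] (0 : ℝ), Ar d c s ≤ s ^ α} ≤
      ENNReal.ofReal (1 / (p * α)) := by
  obtain ⟨β, hβ⟩ := exists_beta (d := d) hd
  have hψ := exteriorMap_of_beta hβ
  have hpR : (0 : ℝ) < p := by exact_mod_cast hp
  have key : ∀ κ : ℝ, 1 / α < κ →
      dimH {c : ℂ | Ren d c p ∧ ∃ᶠ s in 𝓝[>] (0 : ℝ), Ar d c s ≤ s ^ α} ≤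
        ENNReal.ofReal (κ / p) := by
    intro κ hκ
    have hκ0 : 0 < κ := lt_trans (by positivity) hκ
    refine (dimH_mono ?_).trans (dim_big hd hp hψ hκ0)
    rintro c ⟨h1, h2⟩
    exact ⟨h1, big_of_area hd hψ (ren_mem hp h1) hα hκ h2⟩
  have hlim : Tendsto (fun κ : ℝ => ENNReal.ofReal (κ / p)) (𝓝[>] (1 / α))
      (𝓝 (ENNReal.ofReal (1 / α / p))) := by
    apply Tendsto.mono_left _ nhdsWithin_le_nhds
    apply ENNReal.tendsto_ofReal
    exact (continuous_id.div_const (p : ℝ)).tendsto (1 / α)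
  have h2 := ge_of_tendsto hlim (by
    filter_upwards [self_mem_nhdsWithin] with κ hκ
    exact key κ hκ)
  refine h2.trans (le_of_eq ?_)
  congr 1
  field_simp

/-- infinitely renormalizable parameters -/
theorem dim_area_inf (hd : 2 ≤ d) :
    dimH {c : ℂ | {p : ℕ | Ren d c p}.Infinite ∧ ∃ α : ℝ, 0 < α ∧
      ∃ᶠ s in 𝓝[>] (0 : ℝ), Ar d c s ≤ s ^ α} = 0 := by
  obtain ⟨β, hβ⟩ := exists_beta (d := d) hd
  have hψ := exteriorMap_of_beta hβ
  apply dim_inf hd hψ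
  rintro c ⟨h1, α, hα, h2⟩
  obtain ⟨p, hp, hp0⟩ := h1.exists_gt 0
  exact ⟨h1, 1 / α + 1, by positivity,
    big_of_area hd hψ (ren_mem hp0 hp) hα (by linarith) h2⟩

end Pool.Agent.Helper32.RA
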