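import Pool.Agent.Helper32.RA.Decide

set_option autoImplicit false

/-! # Bounds for one period of renormalization -/

namespace Pool.Agent.Helper32.RA

open Complex Filter Topology Set Metric MeasureTheory
open N62a1eb23
open Pool.Agent.H712R2 (P P_succ P_one P_zero fc)
open Pool.Agent.H637R4.PO Pool.Agent.H713R2.AR Pool.Agent.Y736.RN
open Pool.Agent.H713R2 (exists_beta exteriorMap_of_beta)

variable {d : ℕ}

/-- Bounds for one period exclude decay of large order. -/
theorem not_dec_of_bounds (hd : 2 ≤ d) {c : ℂ} (hc : c ∈ multibrotSet d) {p : ℕ} (hp : 1 ≤ p)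
    {C r : ℝ} (hC : 0 ≤ C) (hr : 0 < r) {U : Set ℂ} (hball : ∀ n : ℕ, ball (P d (n * p) c) r ⊆ U)
    (hdiam : ∀ z ∈ U, ∀ z' ∈ U, ‖(fc d c)^[p] z - (fc d c)^[p] z'‖ ≤ C * r)
    {α : ℝ} (hα : Real.log (C + 3) / (p * Real.log d) < α) : ¬ Dec d α c := by
  intro hD
  obtain ⟨β, hβ⟩ := exists_beta (d := d) hd
  have hψ := exteriorMap_of_beta hβ
  have hdR : (1 : ℝ) < d := by exact_mod_cast (by omega : 1 < d)
  have hlogd : 0 < Real.log d := Real.log_pos hdR
  have hlogC : 0 < Real.log (C + 3) := Real.log_pos (by linarith)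
  have hpR : (0 : ℝ) < p := by exact_mod_cast hp
  obtain ⟨α', h1, h2⟩ := exists_between hα
  have h0 : 0 < α' := lt_trans (by positivity) h1
  have h3 : 1 / α' < p * Real.log d / Real.log (C + 3) := by
    rw [div_lt_div_iff₀ h0 hlogC, one_mul]
    rw [div_lt_iff₀ (by positivity)] at h1
    linarith
  obtain ⟨κ, h4, h5⟩ := exists_between h3
  have hκ0 : 0 < κ := lt_trans (by positivity) h4
  have hB := big_of_area hd hψ hc h0 h4 (global_of_dec hd h0 h2 hD)
  refine not_fast hd hc hC (deriv_le' hr hball hdiam) (fast_of_big hd hp hψ hκ0 hlogC ?_ hB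
    isBounded_ball)
  rw [lt_div_iff₀ hlogC] at h5
  linarith

end Pool.Agent.Helper32.RA
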