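import Pool.Agent.Helper32.RA.Area
import Pool.Agent.Helper113.Gorin.Schottky

set_option autoImplicit false

/-! # The areas near one point of the Julia set -/

namespace Pool.Agent.Helper32.RA

open Complex Filter Topology Set Metric MeasureTheory Pool.Agent.H713R2
open N62a1eb23
open Pool.Agent.H712R2 (P P_succ P_one P_zero fc)
open Pool.Agent.H637R4.PO Pool.Agent.H713R2.AR

variable {d : ℕ}

/-- the filled Julia set -/
def Kf (d : ℕ) (c : ℂ) : Set ℂ := {z | ∃ B : ℝ, ∀ n : ℕ, ‖(fc d c)^[n] z‖ ≤ B}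

theorem green_fc (hd : 2 ≤ d) (c z : ℂ) : green d c (fc d c z) = d * green d c z := by
  have hdR : (0 : ℝ) < d := by exact_mod_cast (by omega : 0 < d)
  have h1 := (gap_tendsto hd c z).comp (tendsto_add_atTop_nat 1)
  have h2 := h1.const_mul (d : ℝ)
  have h3 := gap_tendsto hd c (fc d c z)
  refine tendsto_nhds_unique h3 (h2.congr fun n => ?_)
  show (d : ℝ) * (Real.posLog ‖(fc d c)^[n + 1] z‖ / (d : ℝ) ^ (n + 1)) =
    Real.posLog ‖(fc d c)^[n] (fc d c z)‖ / (d : ℝ) ^ n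
  rw [Function.iterate_succ_apply, pow_succ]
  field_simp

theorem green_iter (hd : 2 ≤ d) (c z : ℂ) (n : ℕ) :
    green d c ((fc d c)^[n] z) = (d : ℝ) ^ n * green d c z := by
  induction n with
  | zero => simp
  | succ n ih => rw [Function.iterate_succ_apply', green_fc hd, ih, pow_succ]; ring

theorem green_zero_of_mem (hd : 2 ≤ d) {c z : ℂ} (hz : z ∈ Kf d c) : green d c z = 0 := by
  obtain ⟨B, hB⟩ := hz
  have hdR : (1 : ℝ) < d := by exact_mod_cast (by omega : 1 < d)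
  have h1 : Tendsto (fun n : ℕ => Real.posLog B / (d : ℝ) ^ n) atTop (𝓝 0) := by
    have h2 := (tendsto_inv_atTop_zero.comp (tendsto_pow_atTop_atTop_of_one_lt hdR)).const_mul
      (Real.posLog B)
    rw [mul_zero] at h2
    exact h2
  refine tendsto_nhds_unique (gap_tendsto hd c z) (squeeze_zero (fun n => ?_) (fun n => ?_) h1)
  · exact div_nonneg Real.posLog_nonneg (by positivity)
  · exact div_le_div_of_nonneg_right (posLog_le_of_le (norm_nonneg _) (hB n)) (by positivity)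

theorem mem_of_green_zero (hd : 2 ≤ d) {c z : ℂ} (hz : green d c z = 0) : z ∈ Kf d c := by
  refine ⟨2 * max 1 ‖c‖, fun n => ?_⟩
  have h := norm_iter_le hd (le_max_left 1 ‖c‖) (le_max_right 1 ‖c‖) z n
  rw [hz, mul_zero, Real.exp_zero, mul_one] at h
  exact h

theorem mem_Kf (hd : 2 ≤ d) {c z : ℂ} : z ∈ Kf d c ↔ green d c z = 0 :=
  ⟨green_zero_of_mem hd, mem_of_green_zero hd⟩

theorem isClosed_Kf (hd : 2 ≤ d) (c : ℂ) : IsClosed (Kf d c) := by
  have h : Kf d c = green d c ⁻¹' {0} := by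
    ext z
    exact mem_Kf hd
  rw [h]
  exact isClosed_singleton.preimage (continuous_green hd c)

theorem exists_root (hd : 2 ≤ d) (w : ℂ) : ∃ y : ℂ, y ^ d = w :=
  IsAlgClosed.exists_pow_nat_eq w (by omega)

/-- two different roots -/
theorem exists_two (hd : 2 ≤ d) {w : ℂ} (hw : w ≠ 0) (x : ℂ) : ∃ y : ℂ, y ≠ x ∧ y ^ d = w := by
  obtain ⟨y, hy⟩ := exists_root hd w
  by_cases h : y = x
  · obtain ⟨ω, hω⟩ : ∃ ω : ℂ, ω = Complex.exp (2 * Real.pi * I / d) := ⟨_, rfl⟩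
    have h1 : IsPrimitiveRoot ω d := by
      rw [hω]
      exact Complex.isPrimitiveRoot_exp d (by omega)
    have hy0 : y ≠ 0 := by
      rintro rfl
      rw [zero_pow (by omega)] at hy
      exact hw hy.symm
    refine ⟨ω * y, ?_, ?_⟩
    · intro h2
      have h3 : ω = 1 := by
        rw [h] at h2 hy0
        exact mul_right_cancel₀ hy0 (by rw [h2, one_mul])
      exact h1.ne_one (by omega) h3
    · rw [mul_pow, h1.pow_eq_one, one_mul, hy]
  · exact ⟨y, h, hy⟩

/-- **Covering.** The images of a neighbourhood of a point of the Julia set cover the plane. -/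
theorem cover (hd : 2 ≤ d) {c : ℂ} (hc0 : c ≠ 0) {O : Set ℂ} (hO : IsOpen O) {z₀ : ℂ} (hz : z₀ ∈ O)
    (hz' : z₀ ∈ frontier (Kf d c)) (w : ℂ) : ∃ n : ℕ, w ∈ (fc d c)^[n] '' O := by
  by_contra hcon
  push Not at hcon
  have hpre : ∀ a : ℂ, (∀ n : ℕ, a ∉ (fc d c)^[n] '' O) → ∀ y : ℂ, y ^ d + c = a →
      ∀ n : ℕ, y ∉ (fc d c)^[n] '' O := by
    rintro a ha y hy n ⟨x, hx, hxy⟩
    apply ha (n + 1)
    refine ⟨x, hx, ?_⟩
    rw [Function.iterate_succ_apply', hxy]
    exact hy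
  obtain ⟨b, hbw, hb⟩ : ∃ b : ℂ, b ≠ w ∧ ∀ n : ℕ, b ∉ (fc d c)^[n] '' O := by
    by_cases h : w = c
    · refine ⟨0, ?_, hpre w hcon 0 ?_⟩
      · rw [h]; exact hc0.symm
      · rw [zero_pow (by omega), zero_add, h]
    · obtain ⟨y, hy1, hy2⟩ := exists_two hd (sub_ne_zero.2 h) w
      exact ⟨y, hy1, hpre w hcon y (by rw [hy2]; ring)⟩
  have hzK : z₀ ∈ Kf d c := (isClosed_Kf hd c).frontier_subset hz'
  obtain ⟨B, hB⟩ := hzK
  obtain ⟨r, hr, hrO⟩ := Metric.isOpen_iff.1 hO z₀ hz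
  have hbw' : b - w ≠ 0 := sub_ne_zero.2 hbw
  -- normalisation
  obtain ⟨T, hT⟩ : ∃ T : ℂ → ℂ, T = fun u => (2 * u - w - b) / (b - w) := ⟨_, rfl⟩
  obtain ⟨M, hM⟩ : ∃ M : ℝ, M = (2 * B + ‖w‖ + ‖b‖) / ‖b - w‖ := ⟨_, rfl⟩
  obtain ⟨N, hN⟩ : ∃ N : ℝ, N = Real.exp (Real.pi * Real.exp (Real.pi * (M + 386))) := ⟨_, rfl⟩
  have hnb : 0 < ‖b - w‖ := norm_pos_iff.2 hbw'
  have key : ∀ n : ℕ, ∀ z ∈ ball z₀ (r / 2),
      ‖(fc d c)^[n] z‖ ≤ (N * ‖b - w‖ + ‖w‖ + ‖b‖) / 2 := by
    intro n z hz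
    have hdiff : Differentiable ℂ ((fc d c)^[n]) := Pool.Agent.Y736.RN.diff_it_y d n c
    have h1 := H113G.schottky_all (fun ζ => T ((fc d c)^[n] (z₀ + r * ζ))) M ?_ ?_ ?_ ?_
      ((z - z₀) / r) ?_
    · have h2 : z₀ + r * ((z - z₀) / r) = z := by
        have : (r : ℂ) ≠ 0 := by exact_mod_cast hr.ne'
        field_simp
        ring
      rw [h2, ← hN, hT] at h1
      have h3 : ‖(2 * (fc d c)^[n] z - w - b) / (b - w)‖ ≤ N := h1
      rw [norm_div, div_le_iff₀ hnb] at h3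
      have h4 : ‖2 * (fc d c)^[n] z‖ ≤ ‖2 * (fc d c)^[n] z - w - b‖ + ‖w‖ + ‖b‖ := by
        calc ‖2 * (fc d c)^[n] z‖ = ‖(2 * (fc d c)^[n] z - w - b) + w + b‖ := by congr 1; ring
          _ ≤ ‖(2 * (fc d c)^[n] z - w - b) + w‖ + ‖b‖ := norm_add_le _ _
          _ ≤ _ := by gcongr; exact norm_add_le _ _
      rw [norm_mul, Complex.norm_ofNat] at h4
      rw [le_div_iff₀ two_pos]
      linarith
    · rw [hT]
      apply Differentiable.differentiableOn
      fun_prop (disch := assumption)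
    · intro ζ hζ h
      rw [hT] at h
      have h2 : (2 * (fc d c)^[n] (z₀ + r * ζ) - w - b) / (b - w) = 1 := h
      rw [div_eq_one_iff_eq hbw'] at h2
      have h3 : (fc d c)^[n] (z₀ + r * ζ) = b := by linear_combination h2 / 2
      apply hb n
      refine ⟨_, hrO ?_, h3⟩
      rw [mem_ball, dist_eq_norm, add_sub_cancel_left, norm_mul, Complex.norm_real,
        Real.norm_eq_abs, abs_of_pos hr]
      have := mem_ball_zero_iff.1 hζ
      nlinarith
    · intro ζ hζ h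
      rw [hT] at h
      have h2 : (2 * (fc d c)^[n] (z₀ + r * ζ) - w - b) / (b - w) = -1 := h
      rw [div_eq_iff hbw'] at h2
      have h3 : (fc d c)^[n] (z₀ + r * ζ) = w := by linear_combination h2 / 2
      apply hcon n
      refine ⟨_, hrO ?_, h3⟩
      rw [mem_ball, dist_eq_norm, add_sub_cancel_left, norm_mul, Complex.norm_real,
        Real.norm_eq_abs, abs_of_pos hr]
      have := mem_ball_zero_iff.1 hζ
      nlinarith
    · rw [hT, mul_zero, add_zero]
      show ‖(2 * (fc d c)^[n] z₀ - w - b) / (b - w)‖ ≤ M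
      rw [norm_div, hM]
      gcongr
      calc ‖2 * (fc d c)^[n] z₀ - w - b‖ ≤ ‖2 * (fc d c)^[n] z₀ - w‖ + ‖b‖ := norm_sub_le _ _
        _ ≤ ‖2 * (fc d c)^[n] z₀‖ + ‖w‖ + ‖b‖ := by gcongr; exact norm_sub_le _ _
        _ ≤ 2 * B + ‖w‖ + ‖b‖ := by
            rw [norm_mul, Complex.norm_ofNat]
            have := hB n
            gcongr
    · rw [mem_ball_zero_iff, norm_div, Complex.norm_real, Real.norm_eq_abs, abs_of_pos hr,
        div_lt_iff₀ hr]
      rw [mem_ball, dist_eq_norm] at hz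
      linarith
  have hint : z₀ ∈ interior (Kf d c) := by
    rw [mem_interior]
    exact ⟨ball z₀ (r / 2), fun z hz => ⟨_, fun n => key n z hz⟩, isOpen_ball,
      mem_ball_self (by positivity)⟩
  exact hz'.2 hint

theorem isOpenMap_fc (hd : 2 ≤ d) (c : ℂ) : IsOpenMap (fc d c) := by
  have hA : AnalyticOnNhd ℂ (fc d c) univ := by
    have : Differentiable ℂ (fc d c) := by unfold fc; fun_prop
    exact this.differentiableOn.analyticOnNhd isOpen_univ
  rcases hA.is_constant_or_isOpen isPreconnected_univ with ⟨w, hw⟩ | h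
  · exfalso
    have h1 := hw 0 (mem_univ _)
    have h2 := hw 1 (mem_univ _)
    rw [← h1] at h2
    unfold fc at h2
    rw [one_pow, zero_pow (by omega)] at h2
    norm_num at h2
  · intro s hs
    exact h s (subset_univ _) hs

theorem isOpen_image (hd : 2 ≤ d) (c : ℂ) {O : Set ℂ} (hO : IsOpen O) (n : ℕ) :
    IsOpen ((fc d c)^[n] '' O) := by
  induction n with
  | zero => simpa using hO
  | succ n ih =>
    rw [Function.iterate_succ', image_comp]
    exact isOpenMap_fc hd c _ ih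

/-- finitely many images cover -/
theorem cover_compact (hd : 2 ≤ d) {c : ℂ} (hc0 : c ≠ 0) {O : Set ℂ} (hO : IsOpen O) {z₀ : ℂ}
    (hz : z₀ ∈ O) (hz' : z₀ ∈ frontier (Kf d c)) {L : Set ℂ} (hL : IsCompact L) :
    ∃ N : ℕ, L ⊆ ⋃ n ∈ Finset.range N, (fc d c)^[n] '' O := by
  obtain ⟨t, ht⟩ := hL.elim_finite_subcover (fun n => (fc d c)^[n] '' O)
    (fun n => isOpen_image hd c hO n) (by
      intro w _
      obtain ⟨n, hn⟩ := cover hd hc0 hO hz hz' w
      exact mem_iUnion.2 ⟨n, hn⟩)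
  refine ⟨t.sup id + 1, ht.trans ?_⟩
  intro w hw
  simp only [mem_iUnion] at hw ⊢
  obtain ⟨n, hn, hw⟩ := hw
  refine ⟨n, ?_, hw⟩
  rw [Finset.mem_range]
  have := Finset.le_sup (f := id) hn
  simp only [id] at this
  omega

/-- images of bounded sets -/
theorem volume_image_le {F : ℂ → ℂ} (hF : Differentiable ℂ F) (R : ℝ) :
    ∃ C : ℝ, 0 < C ∧ ∀ S : Set ℂ, MeasurableSet S → S ⊆ closedBall 0 R →
      volume (F '' S) ≤ ENNReal.ofReal C * volume S := by
  have hcont : Continuous (fun z => ‖deriv F z‖ ^ 2) := by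
    have : Continuous (deriv F) := by
      have := hF.contDiff (n := ⊤)
      exact this.continuous_deriv (by simp)
    exact this.norm.pow 2
  obtain ⟨C, hC⟩ := (isCompact_closedBall (0 : ℂ) R).exists_bound_of_continuousOn
    hcont.continuousOn
  refine ⟨max C 1, by positivity, fun S hS hSR => ?_⟩
  have h1 := addHaar_image_le_lintegral_abs_det_fderiv (volume : Measure ℂ) hS (f := F)
    (f' := fun z => (ContinuousLinearMap.toSpanSingleton ℂ (deriv F z)).restrictScalars ℝ)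
    (fun z _ => ((hF z).hasDerivAt.hasFDerivAt.restrictScalars ℝ).hasFDerivWithinAt)
  refine h1.trans ?_
  rw [← setLIntegral_const]
  apply setLIntegral_mono measurable_const
  intro z hz
  rw [Pool.Agent.H713R2.det_mul_real]
  apply ENNReal.ofReal_le_ofReal
  have h2 := hC z (hSR hz)
  rw [Real.norm_eq_abs] at h2
  exact h2.trans (le_max_left _ _)

/-- **Areas near a point of the Julia set.** -/
theorem local_le (hd : 2 ≤ d) {c : ℂ} (hc0 : c ≠ 0) {O : Set ℂ} (hO : IsOpen O) {z₀ : ℂ}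
    (hz : z₀ ∈ O) (hz' : z₀ ∈ frontier (Kf d c)) :
    ∃ C : ℝ, 0 < C ∧ ∀ s : ℝ, 0 < s → s ≤ 1 →
      volume {z : ℂ | green d c z ≤ s} ≤
        ENNReal.ofReal C * volume (O ∩ {z : ℂ | green d c z ≤ s}) := by
  obtain ⟨R, hR⟩ : ∃ R, R = ‖z₀‖ + 1 := ⟨_, rfl⟩
  obtain ⟨N, hN⟩ := cover_compact hd hc0 (hO.inter (isOpen_ball (x := (0:ℂ)) (ε := R)))
    ⟨hz, by rw [mem_ball_zero_iff, hR]; linarith⟩ hz' (isCompact_GLev hd c 1)
  have hC : ∀ n : ℕ, ∃ C : ℝ, 0 < C ∧ ∀ S : Set ℂ, MeasurableSet S → S ⊆ closedBall 0 R →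
      volume ((fc d c)^[n] '' S) ≤ ENNReal.ofReal C * volume S := fun n =>
    volume_image_le (Pool.Agent.Y736.RN.diff_it_y d n c) R
  choose C hC0 hC using hC
  refine ⟨∑ n ∈ Finset.range N, C n + 1, ?_, fun s hs hs1 => ?_⟩
  · have : 0 ≤ ∑ n ∈ Finset.range N, C n := Finset.sum_nonneg fun n _ => (hC0 n).le
    linarith
  have hmeas : MeasurableSet {z : ℂ | green d c z ≤ s} := (isCompact_GLev hd c s).measurableSet
  have hsub : {z : ℂ | green d c z ≤ s} ⊆ ⋃ n ∈ Finset.range N,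
      (fc d c)^[n] '' ((O ∩ ball 0 R) ∩ {z : ℂ | green d c z ≤ s}) := by
    intro z hzs
    have hz1 : z ∈ GLev d c 1 := le_trans (show green d c z ≤ s from hzs) hs1
    have h1 := hN hz1
    simp only [mem_iUnion] at h1 ⊢
    obtain ⟨n, hn, x, hx, hxz⟩ := h1
    refine ⟨n, hn, x, ⟨hx, ?_⟩, hxz⟩
    have h2 := green_iter hd c x n
    rw [hxz] at h2
    have h3 : (1 : ℝ) ≤ (d : ℝ) ^ n := one_le_pow₀ (by exact_mod_cast (by omega : 1 ≤ d))
    have h4 : 0 ≤ green d c x := green_nonneg hd c x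
    show green d c x ≤ s
    have h5 : green d c z ≤ s := hzs
    nlinarith
  calc volume {z : ℂ | green d c z ≤ s}
      ≤ volume (⋃ n ∈ Finset.range N,
          (fc d c)^[n] '' ((O ∩ ball 0 R) ∩ {z : ℂ | green d c z ≤ s})) := measure_mono hsub
    _ ≤ ∑ n ∈ Finset.range N, volume
          ((fc d c)^[n] '' ((O ∩ ball 0 R) ∩ {z : ℂ | green d c z ≤ s})) :=
        measure_biUnion_finset_le _ _
    _ ≤ ∑ n ∈ Finset.range N, ENNReal.ofReal (C n) * volume (O ∩ {z : ℂ | green d c z ≤ s}) := by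
        apply Finset.sum_le_sum
        intro n _
        refine (hC n _ ?_ ?_).trans ?_
        · exact (hO.measurableSet.inter isOpen_ball.measurableSet).inter hmeas
        · exact (inter_subset_left.trans inter_subset_right).trans ball_subset_closedBall
        · gcongr
          exact inter_subset_left
    _ = ENNReal.ofReal (∑ n ∈ Finset.range N, C n) *
          volume (O ∩ {z : ℂ | green d c z ≤ s}) := by
        rw [← Finset.sum_mul, ENNReal.ofReal_sum_of_nonneg fun n _ => (hC0 n).le]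
    _ ≤ _ := by
        gcongr
        linarith

end Pool.Agent.Helper32.RA
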